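import Mathlib
import Pool.Agent.Lib.MP_ba437d_nt.Final

/-!
MP_ba437d_nt: systems of residue classes modulo primes of bounded weight. Criterion in terms of
the masses of the primes of the system below and above `x^(1/3)`.
-/

set_option autoImplicit false

namespace Pool.Agent.Results.MP_ba437d_nt.LargePrimes

open Finset Filter Pool.Agent.Lib.MP_ba437d_nt

open Classical in
/-- For all `K` and `0 < η < 1/3` there are `ε, c > 0` such that for large `x`: every system of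
weight at most `K` whose primes in `(x^ε, x^(1/3 - η)]` and above `x^(1/3 - η)` have the masses
`m₁` and `m₂` with `m₂ + η ≤ 1 - m₁ + m₁^2/2 - m₁^3/6` leaves at least `c x` integers of `[1, x]`
uncovered. -/
theorem result (K η : ℝ) (hK : 0 ≤ K) (hη : 0 < η) (hη' : η < 1 / 3) :
    ∃ ε c : ℝ, 0 < ε ∧ 0 < c ∧ ∃ x₀ : ℕ, ∀ x : ℕ, x₀ ≤ x →
      ∀ (P : Finset ℕ) (a : ℕ → ℤ) (m₁ m₂ : ℝ),
      (∀ p ∈ P, p.Prime ∧ p ≤ x) → ∑ p ∈ P, 1 / (p : ℝ) ≤ K →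
      m₁ = ∑ p ∈ P.filter (fun p : ℕ => (x : ℝ) ^ ε < p ∧ (p : ℝ) ≤ (x : ℝ) ^ (1 / 3 - η)),
        1 / (p : ℝ) →
      m₂ = ∑ p ∈ P.filter (fun p : ℕ => (x : ℝ) ^ (1 / 3 - η) < p), 1 / (p : ℝ) →
      m₂ + η ≤ 1 - m₁ + m₁ ^ 2 / 2 - m₁ ^ 3 / 6 →
      c * x ≤ (((Icc 1 x).filter (fun n : ℕ => ∀ p ∈ P,
        ¬ (n : ℤ) ≡ a p [ZMOD (p : ℤ)])).card : ℝ) := by
  have hL : ∀ (x : ℕ) (s : ℝ) (P : Finset ℕ),
      Lrg x s P = P.filter (fun p : ℕ => (x : ℝ) ^ s < p) := by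
    intro x s P
    ext p
    rw [mem_Lrg, mem_filter]
  have hM : ∀ (x : ℕ) (s t : ℝ) (P : Finset ℕ),
      Mid x s t P = P.filter (fun p : ℕ => (x : ℝ) ^ s < p ∧ (p : ℝ) ≤ (x : ℝ) ^ t) := by
    intro x s t P
    ext p
    rw [mem_Mid, mem_filter]
  have hU : ∀ (x : ℕ) (P : Finset ℕ) (a : ℕ → ℤ), ((unc x P a).card : ℝ) =
      (((Icc 1 x).filter (fun n : ℕ => ∀ p ∈ P, ¬ (n : ℤ) ≡ a p [ZMOD (p : ℤ)])).card : ℝ) := by
    intro x P a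
    congr 2
  obtain ⟨ε, c, h1, _, h3, h4⟩ := crit K η hK hη hη'
  obtain ⟨x₀, hx₀⟩ := eventually_atTop.1 h4
  refine ⟨ε, c, h1, h3, x₀, fun x hx P a m₁ m₂ hP hPK hm₁ hm₂ hm => ?_⟩
  rw [← hU]
  apply hx₀ x hx P a hP hPK
  rw [hL, hM, ← hm₁, ← hm₂]
  exact hm

end Pool.Agent.Results.MP_ba437d_nt.LargePrimes
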