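import Mathlib
import Pool.Agent.Lib.OC93.Main

/-!
MP_ba437d_nt: systems of residue classes modulo primes in which the classes of almost all primes
contain one and the same integer `N`. Such a system of bounded weight leaves a positive proportion
of the interval uncovered, also after the classes of the small primes and of primes of mass less
than 1 below `x^(1/2 - δ)` have been changed arbitrarily.
-/

set_option autoImplicit false

namespace Pool.Agent.Results.MP_ba437d_nt.OneCentre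

open Finset Filter Pool.Agent.Lib.OC93

open Classical in
/-- For all `K`, `C` and `δ > 0` there are `ε, κ, c > 0` such that for large `x`: let `P`, `a` be a
system for `x` of weight at most `K` and `N` an integer with `|N| ≤ C x`, and call a prime of `P`
exceptional if `a p` is not `N` modulo `p`. If the exceptional primes in `(x^ε, x^(1/2 - δ)]` have
mass at most `1 - δ` and those above `x^(1/2 - δ)` have mass at most `κ`, then at least `c x`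
integers of `[1, x]` are uncovered. -/
theorem result (K C δ : ℝ) (hδ : 0 < δ) :
    ∃ ε κ c : ℝ, 0 < ε ∧ 0 < κ ∧ 0 < c ∧ ∃ x₀ : ℕ, ∀ x : ℕ, x₀ ≤ x →
      ∀ (P : Finset ℕ) (a : ℕ → ℤ) (N : ℤ),
      (∀ p ∈ P, p.Prime ∧ p ≤ x) → ∑ p ∈ P, 1 / (p : ℝ) ≤ K → |(N : ℝ)| ≤ C * x →
      ∑ p ∈ P.filter (fun p : ℕ => (x : ℝ) ^ ε < p ∧ (p : ℝ) ≤ (x : ℝ) ^ (1 / 2 - δ) ∧
        ¬ a p ≡ N [ZMOD (p : ℤ)]), 1 / (p : ℝ) ≤ 1 - δ →
      ∑ p ∈ P.filter (fun p : ℕ => (x : ℝ) ^ (1 / 2 - δ) < p ∧ ¬ a p ≡ N [ZMOD (p : ℤ)]),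
        1 / (p : ℝ) ≤ κ →
      c * x ≤ (((Icc 1 x).filter (fun n : ℕ => ∀ p ∈ P,
        ¬ (n : ℤ) ≡ a p [ZMOD (p : ℤ)])).card : ℝ) := by
  obtain ⟨ε, κ, c, hε, hκ, hc, h⟩ := main K C δ hδ
  obtain ⟨x₀, hx₀⟩ := eventually_atTop.1 h
  refine ⟨ε, κ, c, hε, hκ, hc, x₀, fun x hx P a N hP hPK hN hR hR2 => ?_⟩
  have e1 : fR P a N ((x : ℝ) ^ ε) ((x : ℝ) ^ (1 / 2 - δ)) =
      P.filter (fun p : ℕ => (x : ℝ) ^ ε < p ∧ (p : ℝ) ≤ (x : ℝ) ^ (1 / 2 - δ) ∧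
        ¬ a p ≡ N [ZMOD (p : ℤ)]) := by
    ext p
    rw [mem_fR, mem_filter, and_assoc]
  have e2 : fR P a N ((x : ℝ) ^ (1 / 2 - δ)) x =
      P.filter (fun p : ℕ => (x : ℝ) ^ (1 / 2 - δ) < p ∧ ¬ a p ≡ N [ZMOD (p : ℤ)]) := by
    ext p
    rw [mem_fR, mem_filter]
    constructor
    · rintro ⟨h1, h2, h3⟩
      exact ⟨h1, h2.1, h3⟩
    · rintro ⟨h1, h2, h3⟩
      exact ⟨h1, ⟨h2, by exact_mod_cast (hP p h1).2⟩, h3⟩
  have e3 : ((unc x a P).card : ℝ) = (((Icc 1 x).filter (fun n : ℕ => ∀ p ∈ P,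
        ¬ (n : ℤ) ≡ a p [ZMOD (p : ℤ)])).card : ℝ) := by
    congr 2
  rw [← e3]
  exact hx₀ x hx P a N hP hPK hN (by rw [e1]; exact hR) (by rw [e2]; exact hR2)

end Pool.Agent.Results.MP_ba437d_nt.OneCentre
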