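import Mathlib
import Pool.Agent.Lib.MP_ba437d_nt.Final

/-!
MP_ba437d_nt: systems of residue classes modulo primes whose weight exceeds 1. If the second
moment of the number of medium classes through a point is not carried by the points in many
classes, then a positive proportion of the interval is uncovered.
-/

set_option autoImplicit false

namespace Pool.Agent.Results.MP_ba437d_nt.RichPoints

open Finset Filter Pool.Agent.Lib.MP_ba437d_nt

open Classical in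
/-- Let `h n` be the number of primes `p` of the system in `(x^(8/25), x^(12/25)]` with
`n ≡ a p` modulo `p`. For every `T ≥ 1` there is `κ > 0` such that for every `K` there are
`ε, c > 0` such that for large `x`: every system of weight at most `K` with mass at most `1 + κ`
above `x^ε` and with `∑ h(n)^2 ≤ κ 4^(-K) x` over the `n ≤ x` with `h(n) > T` leaves at least
`c x` integers of `[1, x]` uncovered. -/
theorem result (T : ℕ) (hT : 1 ≤ T) :
    ∃ κ : ℝ, 0 < κ ∧ ∀ K : ℝ, 0 ≤ K → ∃ ε c : ℝ, 0 < ε ∧ 0 < c ∧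
      ∃ x₀ : ℕ, ∀ x : ℕ, x₀ ≤ x → ∀ (P : Finset ℕ) (a : ℕ → ℤ) (h : ℕ → ℕ),
      (∀ p ∈ P, p.Prime ∧ p ≤ x) → ∑ p ∈ P, 1 / (p : ℝ) ≤ K →
      ∑ p ∈ P.filter (fun p : ℕ => (x : ℝ) ^ ε < p), 1 / (p : ℝ) ≤ 1 + κ →
      (∀ n : ℕ, h n = (P.filter (fun p : ℕ => (x : ℝ) ^ (8 / 25 : ℝ) < p ∧
        (p : ℝ) ≤ (x : ℝ) ^ (12 / 25 : ℝ) ∧ (n : ℤ) ≡ a p [ZMOD (p : ℤ)])).card) →
      ∑ n ∈ (Icc 1 x).filter (fun n => T < h n), (h n : ℝ) ^ 2 ≤ κ * (4 : ℝ) ^ (-K) * x →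
      c * x ≤ (((Icc 1 x).filter (fun n : ℕ => ∀ p ∈ P,
        ¬ (n : ℤ) ≡ a p [ZMOD (p : ℤ)])).card : ℝ) := by
  have hL : ∀ (x : ℕ) (s : ℝ) (P : Finset ℕ),
      Lrg x s P = P.filter (fun p : ℕ => (x : ℝ) ^ s < p) := by
    intro x s P
    ext p
    rw [mem_Lrg, mem_filter]
  have hU : ∀ (x : ℕ) (P : Finset ℕ) (a : ℕ → ℤ), ((unc x P a).card : ℝ) =
      (((Icc 1 x).filter (fun n : ℕ => ∀ p ∈ P, ¬ (n : ℤ) ≡ a p [ZMOD (p : ℤ)])).card : ℝ) := by
    intro x P a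
    congr 2
  obtain ⟨κ, hκ, h⟩ := bounded T hT
  refine ⟨κ, hκ, fun K hK => ?_⟩
  obtain ⟨ε, c, h1, h3, h4⟩ := h K hK
  obtain ⟨x₀, hx₀⟩ := eventually_atTop.1 h4
  refine ⟨ε, c, h1, h3, x₀, fun x hx P a h hP hPK hm hh hs => ?_⟩
  have hhit : ∀ n : ℕ, (hit (Mid x (8 / 25) (12 / 25) P) a n).card = h n := by
    intro n
    rw [hh n]
    congr 1
    ext p
    unfold hit
    rw [mem_filter, mem_Mid, mem_filter]
    tauto
  rw [← hU]
  apply hx₀ x hx P a hP hPK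
  · rw [hL]
    exact hm
  · simp only [hhit]
    exact hs

end Pool.Agent.Results.MP_ba437d_nt.RichPoints
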