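import Mathlib
import Pool.Agent.Lib.TC93.G2

/-!
MP_ba437d_nt: systems of residue classes modulo primes in which the class of every larger prime
contains one of two given integers `N₁`, `N₂`. If such a system has bounded weight and `N₁`, `N₂`
lie on the same side of a part of the interval, one of them near that part, then a positive
proportion of the interval is uncovered.
-/

set_option autoImplicit false

namespace Pool.Agent.Results.MP_ba437d_nt.TwoCentres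

open Finset Filter Pool.Agent.Lib.TC93 Pool.Agent.Lib.OC93

open Classical in
/-- For all `K`, `C`, `δ > 0` and `D₁` there are `D` and `ε, κ, c > 0` such that for large `x`:
let `P`, `a` be a system for `x` of weight at most `K` and `N₁`, `N₂` integers with `|N₁| ≤ C x`
and either `N₁ ≤ N₂`, `-κ x ≤ N₂ ≤ (1 - δ) x` or `N₂ ≤ N₁`, `δ x ≤ N₂ ≤ (1 + κ) x`. Suppose that
the `p ∈ P` with `p > x^ε` for which `a p` is neither `N₁` nor `N₂` modulo `p` have mass at most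
`κ`, and that every `p ∈ P` with `p ≤ D` satisfies `a p ≢ N₁` modulo `p` and, if `p > D₁`, divides
`N₁ - N₂`. Then at least `c x` integers of `[1, x]` are uncovered. -/
theorem result (K C δ : ℝ) (hδ : 0 < δ) (D₁ : ℕ) :
    ∃ (D : ℕ) (ε κ c : ℝ), 0 < ε ∧ 0 < κ ∧ 0 < c ∧ ∃ x₀ : ℕ, ∀ x : ℕ, x₀ ≤ x →
      ∀ (P : Finset ℕ) (a : ℕ → ℤ) (N₁ N₂ : ℤ),
      (∀ p ∈ P, p.Prime ∧ p ≤ x) → ∑ p ∈ P, 1 / (p : ℝ) ≤ K → |(N₁ : ℝ)| ≤ C * x →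
      (N₁ ≤ N₂ ∧ -(κ * x) ≤ (N₂ : ℝ) ∧ (N₂ : ℝ) ≤ (1 - δ) * x ∨
        N₂ ≤ N₁ ∧ δ * x ≤ (N₂ : ℝ) ∧ (N₂ : ℝ) ≤ (1 + κ) * x) →
      (∀ p ∈ P, p ≤ D → ¬ a p ≡ N₁ [ZMOD (p : ℤ)] ∧ (p ≤ D₁ ∨ (p : ℤ) ∣ N₁ - N₂)) →
      ∑ p ∈ P.filter (fun p : ℕ => (x : ℝ) ^ ε < p ∧ ¬ a p ≡ N₁ [ZMOD (p : ℤ)] ∧
        ¬ a p ≡ N₂ [ZMOD (p : ℤ)]), 1 / (p : ℝ) ≤ κ →
      c * x ≤ (((Icc 1 x).filter (fun n : ℕ => ∀ p ∈ P,
        ¬ (n : ℤ) ≡ a p [ZMOD (p : ℤ)])).card : ℝ) := by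
  obtain ⟨D, ε, κ, c, hε, hκ, hc, h⟩ := two K C δ hδ D₁
  obtain ⟨x₀, hx₀⟩ := eventually_atTop.1 h
  refine ⟨D, ε, κ, c, hε, hκ, hc, x₀, fun x hx P a N₁ N₂ hP hPK hN₁ hcase htiny hm => ?_⟩
  have e1 : exc P a N₁ N₂ ((x : ℝ) ^ ε) = P.filter (fun p : ℕ => (x : ℝ) ^ ε < p ∧
      ¬ a p ≡ N₁ [ZMOD (p : ℤ)] ∧ ¬ a p ≡ N₂ [ZMOD (p : ℤ)]) := by
    ext p
    rw [mem_exc, mem_filter]
  have e3 : ((unc x a P).card : ℝ) = (((Icc 1 x).filter (fun n : ℕ => ∀ p ∈ P,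
        ¬ (n : ℤ) ≡ a p [ZMOD (p : ℤ)])).card : ℝ) := by
    congr 2
  rw [← e3]
  exact hx₀ x hx P a N₁ N₂ hP hPK hN₁ hcase htiny (by rw [e1]; exact hm)

end Pool.Agent.Results.MP_ba437d_nt.TwoCentres
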